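import Mathlib.Order.Sublattice
import Mathlib.Data.Setoid.Basic
import Mathlib.Data.Finite.Prod
import Mathlib.SetTheory.Cardinal.NatCard
import Mathlib.Data.Finset.Lattice.Fold
import Mathlib.Data.Set.Finite.Basic
import Mathlib.Data.Set.Finite.Lemmas
import Mathlib.Data.Fintype.EquivFin
import Mathlib.Tactic.Tauto
import Mathlib.Tactic.Linarith

/-!
# MP_bb8c7b_al, Q1: lattices of diagonal sublattices over a finitely generated variety

For a lattice `L` let `Δ(L)` be the lattice of the diagonal sublattices of `L × L`. If `M` is a finite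
lattice, then the lattices `Δ(L)`, for `L` in the variety generated by `M`, all lie in the variety
generated by the finite lattice of all sublattices of `M × M`; in particular they satisfy a nontrivial
lattice identity. So for no finitely generated variety `V` do the lattices `Δ(L)`, `L ∈ V`, generate
the variety of all lattices.
-/

set_option autoImplicit false

universe u v w

namespace Pool.Agent.Results.MP_bb8c7b_al.FinitelyGenerated

/-- Lattice terms in the variables `x₀, x₁, x₂, …`. -/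
inductive LTerm : Type
  | var : ℕ → LTerm
  | join : LTerm → LTerm → LTerm
  | meet : LTerm → LTerm → LTerm

/-- The value of a lattice term under an assignment of elements of `K` to the variables. -/
def LTerm.eval {K : Type u} [Lattice K] (v : ℕ → K) : LTerm → K
  | .var n => v n
  | .join a b => a.eval v ⊔ b.eval v
  | .meet a b => a.eval v ⊓ b.eval v

/-- The lattice `K` satisfies the identity `s = t`. -/
def Holds (K : Type u) [Lattice K] (s t : LTerm) : Prop :=
  ∀ v : ℕ → K, s.eval v = t.eval v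

/-- The lattice `Δ(L)` of the diagonal sublattices of `L × L`: the sublattices containing `(x, x)`
for all `x` in `L`. It is a sublattice of the lattice of all sublattices of `L × L`, in which the
order is inclusion, the meet is the intersection and the join is the sublattice generated by the
union. -/
def Diag (L : Type u) [Lattice L] : Sublattice (Sublattice (L × L)) where
  carrier := {S | ∀ x : L, (x, x) ∈ S}
  supClosed' := fun S hS T _ x => (le_sup_left : S ≤ S ⊔ T) (hS x)
  infClosed' := fun _ hS _ hT x => ⟨hS x, hT x⟩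

theorem mem_Diag {L : Type u} [Lattice L] {S : Sublattice (L × L)} :
    S ∈ Diag L ↔ ∀ x : L, (x, x) ∈ S := Iff.rfl

/-! ### Convex sublattices -/

/-- `C` is a convex sublattice. -/
def Conv {F : Type u} [Lattice F] (C : Set F) : Prop :=
  ∀ a ∈ C, ∀ b ∈ C, ∀ c, a ⊓ b ≤ c → c ≤ a ⊔ b → c ∈ C

theorem median {F : Type u} [Lattice F] {C1 C2 C3 : Set F} (h1 : Conv C1) (h2 : Conv C2)
    (h3 : Conv C3) {a b c : F} (a1 : a ∈ C1) (a2 : a ∈ C2) (b1 : b ∈ C1) (b3 : b ∈ C3)
    (c2 : c ∈ C2) (c3 : c ∈ C3) : ∃ m, m ∈ C1 ∧ m ∈ C2 ∧ m ∈ C3 := by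
  refine ⟨(a ⊓ b) ⊔ (a ⊓ c) ⊔ (b ⊓ c), ?_, ?_, ?_⟩
  · refine h1 a a1 b b1 _ (le_sup_left.trans le_sup_left) ?_
    refine sup_le (sup_le ?_ ?_) ?_
    · exact inf_le_left.trans le_sup_left
    · exact inf_le_left.trans le_sup_left
    · exact inf_le_left.trans le_sup_right
  · refine h2 a a2 c c2 _ (le_sup_right.trans le_sup_left) ?_
    refine sup_le (sup_le ?_ ?_) ?_
    · exact inf_le_left.trans le_sup_left
    · exact inf_le_left.trans le_sup_left
    · exact inf_le_right.trans le_sup_right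
  · refine h3 b b3 c c3 _ le_sup_right ?_
    refine sup_le (sup_le ?_ ?_) ?_
    · exact inf_le_right.trans le_sup_left
    · exact inf_le_right.trans le_sup_right
    · exact inf_le_left.trans le_sup_left

theorem conv_fibre {F : Type u} {A : Type v} [Lattice F] [Lattice A] (α : LatticeHom F A) (a : A) :
    Conv {q : F | α q = a} := by
  intro p hp q hq c h1 h2
  have hp' : α p = a := hp
  have hq' : α q = a := hq
  have h3 := OrderHomClass.mono α h1
  have h4 := OrderHomClass.mono α h2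
  rw [map_inf, hp', hq', inf_idem] at h3
  rw [map_sup, hp', hq', sup_idem] at h4
  exact le_antisymm h4 h3

theorem conv_right {F : Type u} {A : Type v} [Lattice F] [Lattice A] (α : LatticeHom F A) (a : A)
    {S : Sublattice (F × F)} (hS : S ∈ Diag F) : Conv {q : F | ∃ p, (p, q) ∈ S ∧ α p = a} := by
  rintro q1 ⟨p1, hp1, e1⟩ q2 ⟨p2, hp2, e2⟩ q h1 h2
  refine ⟨(q ⊓ (p1 ⊔ p2)) ⊔ (p1 ⊓ p2), ?_, ?_⟩
  · have h3 : ((q, q) ⊓ ((p1, q1) ⊔ (p2, q2))) ⊔ ((p1, q1) ⊓ (p2, q2)) ∈ S :=
      S.sup_mem (S.inf_mem (hS q) (S.sup_mem hp1 hp2)) (S.inf_mem hp1 hp2)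
    have h4 : ((q, q) ⊓ ((p1, q1) ⊔ (p2, q2))) ⊔ ((p1, q1) ⊓ (p2, q2)) =
        ((q ⊓ (p1 ⊔ p2)) ⊔ (p1 ⊓ p2), q) := by
      ext
      · rfl
      · show (q ⊓ (q1 ⊔ q2)) ⊔ (q1 ⊓ q2) = q
        rw [inf_eq_left.2 h2, sup_eq_left.2 h1]
    rw [h4] at h3
    exact h3
  · rw [map_sup, map_inf, map_sup, map_inf, e1, e2, sup_idem, inf_idem]
    exact sup_eq_right.2 inf_le_right

theorem conv_left {F : Type u} {A : Type v} [Lattice F] [Lattice A] (α : LatticeHom F A) (a : A)
    {S : Sublattice (F × F)} (hS : S ∈ Diag F) : Conv {p : F | ∃ q, (p, q) ∈ S ∧ α q = a} := by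
  rintro p1 ⟨q1, hp1, e1⟩ p2 ⟨q2, hp2, e2⟩ p h1 h2
  refine ⟨(p ⊓ (q1 ⊔ q2)) ⊔ (q1 ⊓ q2), ?_, ?_⟩
  · have h3 : ((p, p) ⊓ ((p1, q1) ⊔ (p2, q2))) ⊔ ((p1, q1) ⊓ (p2, q2)) ∈ S :=
      S.sup_mem (S.inf_mem (hS p) (S.sup_mem hp1 hp2)) (S.inf_mem hp1 hp2)
    have h4 : ((p, p) ⊓ ((p1, q1) ⊔ (p2, q2))) ⊔ ((p1, q1) ⊓ (p2, q2)) =
        (p, (p ⊓ (q1 ⊔ q2)) ⊔ (q1 ⊓ q2)) := by
      ext
      · show (p ⊓ (p1 ⊔ p2)) ⊔ (p1 ⊓ p2) = p
        rw [inf_eq_left.2 h2, sup_eq_left.2 h1]
      · rfl
    rw [h4] at h3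
    exact h3
  · rw [map_sup, map_inf, map_sup, map_inf, e1, e2, sup_idem, inf_idem]
    exact sup_eq_right.2 inf_le_right

theorem conv_fix_left {F : Type u} [Lattice F] {S : Sublattice (F × F)} (hS : S ∈ Diag F) (q : F) :
    Conv {p : F | (p, q) ∈ S} := by
  have h := conv_left (LatticeHom.id F) q hS
  have e : {p : F | ∃ q', (p, q') ∈ S ∧ LatticeHom.id F q' = q} = {p : F | (p, q) ∈ S} := by
    ext p
    constructor
    · rintro ⟨q', h1, h2⟩
      have h3 : q' = q := h2
      rw [h3] at h1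
      exact h1
    · intro h1
      exact ⟨q, h1, rfl⟩
  rw [e] at h
  exact h

theorem conv_fix_right {F : Type u} [Lattice F] {S : Sublattice (F × F)} (hS : S ∈ Diag F) (p : F) :
    Conv {q : F | (p, q) ∈ S} := by
  have h := conv_right (LatticeHom.id F) p hS
  have e : {q : F | ∃ p', (p', q) ∈ S ∧ LatticeHom.id F p' = p} = {q : F | (p, q) ∈ S} := by
    ext q
    constructor
    · rintro ⟨p', h1, h2⟩
      have h3 : p' = p := h2
      rw [h3] at h1
      exact h1
    · intro h1
      exact ⟨p, h1, rfl⟩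
  rw [e] at h
  exact h

/-- The key lemma: the meet of diagonal sublattices commutes with the map induced by a pair of
homomorphisms. -/
theorem key {F : Type u} {A : Type v} {B : Type w} [Lattice F] [Lattice A] [Lattice B]
    (α : LatticeHom F A) (β : LatticeHom F B) {S T : Sublattice (F × F)} (hS : S ∈ Diag F)
    (hT : T ∈ Diag F) {f g f' g' : F} (h1 : (f, g) ∈ S) (h2 : (f', g') ∈ T)
    (hα : α f' = α f) (hβ : β g' = β g) :
    ∃ p q, (p, q) ∈ S ∧ (p, q) ∈ T ∧ α p = α f ∧ β q = β g := by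
  obtain ⟨q, ⟨p1, hp1, e1⟩, ⟨p2, hp2, e2⟩, e3⟩ :=
    median (conv_right α (α f) hS) (conv_right α (α f) hT) (conv_fibre β (β g))
      (a := f) (b := g) (c := g') ⟨f, hS f, rfl⟩ ⟨f, hT f, rfl⟩ ⟨f, h1, rfl⟩ rfl
      ⟨f', h2, hα⟩ hβ
  obtain ⟨p, h3, h4, h5⟩ :=
    median (conv_fix_left hS q) (conv_fix_left hT q) (conv_fibre α (α f))
      (a := q) (b := p1) (c := p2) (hS q) (hT q) hp1 e1 hp2 e2
  exact ⟨p, q, h3, h4, h5, e3⟩

/-! ### Evaluation and maps -/

/-- The product of two homomorphisms. -/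
def pm {F : Type u} {A : Type v} {B : Type w} [Lattice F] [Lattice A] [Lattice B]
    (α : LatticeHom F A) (β : LatticeHom F B) : LatticeHom (F × F) (A × B) where
  toFun p := (α p.1, β p.2)
  map_sup' p q := by
    ext
    · exact map_sup α p.1 q.1
    · exact map_sup β p.2 q.2
  map_inf' p q := by
    ext
    · exact map_inf α p.1 q.1
    · exact map_inf β p.2 q.2

theorem pm_apply {F : Type u} {A : Type v} {B : Type w} [Lattice F] [Lattice A] [Lattice B]
    (α : LatticeHom F A) (β : LatticeHom F B) (p : F × F) : pm α β p = (α p.1, β p.2) := rfl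

theorem eval_diag {F : Type u} [Lattice F] {v : ℕ → Sublattice (F × F)} (hv : ∀ i, v i ∈ Diag F)
    (t : LTerm) : t.eval v ∈ Diag F := by
  induction t with
  | var n => exact hv n
  | join a b iha ihb => exact (Diag F).sup_mem iha ihb
  | meet a b iha ihb => exact (Diag F).inf_mem iha ihb

theorem eval_map {F : Type u} {A : Type v} {B : Type w} [Lattice F] [Lattice A] [Lattice B]
    (α : LatticeHom F A) (β : LatticeHom F B) {v : ℕ → Sublattice (F × F)}
    (hv : ∀ i, v i ∈ Diag F) (t : LTerm) :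
    (t.eval v).map (pm α β) = t.eval (fun i => (v i).map (pm α β)) := by
  induction t with
  | var n => rfl
  | join a b iha ihb =>
    show (a.eval v ⊔ b.eval v).map (pm α β) = _
    rw [Sublattice.map_sup, iha, ihb]
    rfl
  | meet a b iha ihb =>
    show (a.eval v ⊓ b.eval v).map (pm α β) = _
    have h : (a.eval v ⊓ b.eval v).map (pm α β) =
        (a.eval v).map (pm α β) ⊓ (b.eval v).map (pm α β) := by
      apply le_antisymm (Sublattice.map_inf_le _ _ _)
      rintro ⟨x, y⟩ ⟨⟨⟨f, g⟩, h1, e1⟩, ⟨⟨f', g'⟩, h2, e2⟩⟩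
      have e1a : α f = x := congrArg Prod.fst e1
      have e1b : β g = y := congrArg Prod.snd e1
      have e2a : α f' = x := congrArg Prod.fst e2
      have e2b : β g' = y := congrArg Prod.snd e2
      obtain ⟨p, q, h3, h4, h5, h6⟩ := key α β (eval_diag hv a) (eval_diag hv b) h1 h2
        (e2a.trans e1a.symm) (e2b.trans e1b.symm)
      refine ⟨(p, q), ⟨h3, h4⟩, ?_⟩
      rw [pm_apply]
      show (α p, β q) = (x, y)
      rw [h5, h6, e1a, e1b]
    rw [h, iha, ihb]
    rfl

theorem comap_diag {F : Type u} {L : Type v} [Lattice F] [Lattice L] (h : LatticeHom F L)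
    {S : Sublattice (L × L)} (hS : S ∈ Diag L) : S.comap (pm h h) ∈ Diag F :=
  fun x => hS (h x)

theorem eval_comap_le {F : Type u} {L : Type v} [Lattice F] [Lattice L] (h : LatticeHom F L)
    (v : ℕ → Sublattice (L × L)) (t : LTerm) :
    t.eval (fun i => (v i).comap (pm h h)) ≤ (t.eval v).comap (pm h h) := by
  induction t with
  | var n => exact le_rfl
  | join a b iha ihb => exact (sup_le_sup iha ihb).trans (Sublattice.le_comap_sup _ _ _)
  | meet a b iha ihb =>
    refine (inf_le_inf iha ihb).trans ?_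
    exact le_of_eq (Sublattice.comap_inf _ _ _).symm

theorem lift_term {L : Type v} [Lattice L] (v : ℕ → Sublattice (L × L)) (hv : ∀ i, v i ∈ Diag L)
    (t : LTerm) : ∀ f g : L, (f, g) ∈ t.eval v → ∃ W : Set L, W.Finite ∧
      ∀ (F : Type u) [Lattice F] (h : LatticeHom F L), W ⊆ Set.range h →
        ∃ φ ψ : F, (φ, ψ) ∈ t.eval (fun i => (v i).comap (pm h h)) ∧ h φ = f ∧ h ψ = g := by
  induction t with
  | var n =>
    intro f g hfg
    refine ⟨{f, g}, Set.toFinite _, ?_⟩
    intro F _ h hW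
    obtain ⟨φ, hφ⟩ := hW (Set.mem_insert f {g})
    obtain ⟨ψ, hψ⟩ := hW (Set.mem_insert_of_mem f (Set.mem_singleton g))
    refine ⟨φ, ψ, ?_, hφ, hψ⟩
    show (h φ, h ψ) ∈ v n
    rw [hφ, hψ]
    exact hfg
  | join a b iha ihb =>
    let G : Sublattice (L × L) :=
      { carrier := {p | ∃ W : Set L, W.Finite ∧
          ∀ (F : Type u) [Lattice F] (h : LatticeHom F L), W ⊆ Set.range h →
          ∃ φ ψ : F, (φ, ψ) ∈ (LTerm.join a b).eval (fun i => (v i).comap (pm h h)) ∧
            h φ = p.1 ∧ h ψ = p.2}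
        supClosed' := by
          rintro p ⟨W1, f1, h1⟩ q ⟨W2, f2, h2⟩
          refine ⟨W1 ∪ W2, f1.union f2, ?_⟩
          intro F _ h hW
          obtain ⟨φ1, ψ1, m1, e1, e1'⟩ := h1 F h (Set.subset_union_left.trans hW)
          obtain ⟨φ2, ψ2, m2, e2, e2'⟩ := h2 F h (Set.subset_union_right.trans hW)
          refine ⟨φ1 ⊔ φ2, ψ1 ⊔ ψ2, Sublattice.sup_mem m1 m2, ?_, ?_⟩
          · rw [map_sup, e1, e2]; rfl
          · rw [map_sup, e1', e2']; rfl
        infClosed' := by
          rintro p ⟨W1, f1, h1⟩ q ⟨W2, f2, h2⟩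
          refine ⟨W1 ∪ W2, f1.union f2, ?_⟩
          intro F _ h hW
          obtain ⟨φ1, ψ1, m1, e1, e1'⟩ := h1 F h (Set.subset_union_left.trans hW)
          obtain ⟨φ2, ψ2, m2, e2, e2'⟩ := h2 F h (Set.subset_union_right.trans hW)
          refine ⟨φ1 ⊓ φ2, ψ1 ⊓ ψ2, Sublattice.inf_mem m1 m2, ?_, ?_⟩
          · rw [map_inf, e1, e2]; rfl
          · rw [map_inf, e1', e2']; rfl }
    have ha : a.eval v ≤ G := by
      rintro ⟨f, g⟩ hfg
      obtain ⟨W, hW, h1⟩ := iha f g hfg
      refine ⟨W, hW, ?_⟩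
      intro F _ h hh
      obtain ⟨φ, ψ, m, e, e'⟩ := h1 F h hh
      have h2 : a.eval (fun i => (v i).comap (pm h h)) ≤
          a.eval (fun i => (v i).comap (pm h h)) ⊔ b.eval (fun i => (v i).comap (pm h h)) :=
        le_sup_left
      exact ⟨φ, ψ, h2 m, e, e'⟩
    have hb : b.eval v ≤ G := by
      rintro ⟨f, g⟩ hfg
      obtain ⟨W, hW, h1⟩ := ihb f g hfg
      refine ⟨W, hW, ?_⟩
      intro F _ h hh
      obtain ⟨φ, ψ, m, e, e'⟩ := h1 F h hh
      have h2 : b.eval (fun i => (v i).comap (pm h h)) ≤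
          a.eval (fun i => (v i).comap (pm h h)) ⊔ b.eval (fun i => (v i).comap (pm h h)) :=
        le_sup_right
      exact ⟨φ, ψ, h2 m, e, e'⟩
    intro f g hfg
    exact (sup_le ha hb : a.eval v ⊔ b.eval v ≤ G) hfg
  | meet a b iha ihb =>
    intro f g hfg
    obtain ⟨W1, f1, h1⟩ := iha f g hfg.1
    obtain ⟨W2, f2, h2⟩ := ihb f g hfg.2
    refine ⟨W1 ∪ W2, f1.union f2, ?_⟩
    intro F _ h hW
    obtain ⟨φ1, ψ1, m1, e1, e1'⟩ := h1 F h (Set.subset_union_left.trans hW)
    obtain ⟨φ2, ψ2, m2, e2, e2'⟩ := h2 F h (Set.subset_union_right.trans hW)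
    have hv' : ∀ i, (v i).comap (pm h h) ∈ Diag F := fun i => comap_diag h (hv i)
    obtain ⟨p, q, h3, h4, h5, h6⟩ := key h h (eval_diag hv' a) (eval_diag hv' b) m1 m2
      (e2.trans e1.symm) (e2'.trans e1'.symm)
    exact ⟨p, q, ⟨h3, h4⟩, h5.trans e1, h6.trans e1'⟩

/-! ### Separation by pairs of coordinates -/

theorem squeeze {X : Type v} {M : Type u} [Lattice M] [Finite X] [Nonempty X]
    (F : Sublattice (X → M)) (C : Set F) (hC : Conv C) (φ : F)
    (h : ∀ x, ∃ φ' ∈ C, φ'.1 x = φ.1 x) : φ ∈ C := by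
  have : Fintype X := Fintype.ofFinite X
  choose p hp hx using h
  have hne : (Finset.univ : Finset X).Nonempty := Finset.univ_nonempty
  have ha : Finset.univ.inf' hne p ∈ C := by
    apply Finset.inf'_mem C
    · intro a ha b hb
      exact hC a ha b hb _ le_rfl (inf_le_left.trans le_sup_left)
    · intro i _
      exact hp i
  have hb : Finset.univ.sup' hne p ∈ C := by
    apply Finset.sup'_mem C
    · intro a ha b hb
      exact hC a ha b hb _ (inf_le_left.trans le_sup_left) le_rfl
    · intro i _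
      exact hp i
  refine hC _ ha _ hb φ ?_ ?_
  · refine inf_le_left.trans ?_
    intro x
    have h1 : Finset.univ.inf' hne p ≤ p x := Finset.inf'_le _ (Finset.mem_univ x)
    have h2 : (Finset.univ.inf' hne p).1 x ≤ (p x).1 x := h1 x
    rw [hx x] at h2
    exact h2
  · refine le_trans ?_ le_sup_right
    intro x
    have h1 : p x ≤ Finset.univ.sup' hne p := Finset.le_sup' _ (Finset.mem_univ x)
    have h2 : (p x).1 x ≤ (Finset.univ.sup' hne p).1 x := h1 x
    rw [hx x] at h2
    exact h2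

/-- The evaluation at `x`. -/
def ev {X : Type v} {M : Type u} [Lattice M] (F : Sublattice (X → M)) (x : X) :
    LatticeHom F M where
  toFun φ := φ.1 x
  map_sup' _ _ := rfl
  map_inf' _ _ := rfl

theorem separate {X : Type v} {M : Type u} [Lattice M] [Finite X] (F : Sublattice (X → M))
    {P : Sublattice (F × F)} (hP : P ∈ Diag F) (φ ψ : F)
    (h : ∀ x y, ∃ φ' ψ' : F, (φ', ψ') ∈ P ∧ φ'.1 x = φ.1 x ∧ ψ'.1 y = ψ.1 y) : (φ, ψ) ∈ P := by
  rcases isEmpty_or_nonempty X with hX | hX
  · have e : φ = ψ := by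
      apply Subtype.ext
      funext x
      exact (hX.false x).elim
    rw [e]
    exact hP ψ
  · have h1 : ∀ y, ∃ q : F, (φ, q) ∈ P ∧ q.1 y = ψ.1 y := by
      intro y
      have h2 := squeeze F {p : F | ∃ q, (p, q) ∈ P ∧ ev F y q = ψ.1 y}
        (conv_left (ev F y) (ψ.1 y) hP) φ
      obtain ⟨q, hq, hq'⟩ := h2 (by
        intro x
        obtain ⟨φ', ψ', h3, h4, h5⟩ := h x y
        exact ⟨φ', ⟨ψ', h3, h5⟩, h4⟩)
      exact ⟨q, hq, hq'⟩
    exact squeeze F {q : F | (φ, q) ∈ P} (conv_fix_right hP φ) ψ (by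
      intro y
      obtain ⟨q, hq, hq'⟩ := h1 y
      exact ⟨q, hq, hq'⟩)

/-! ### Term functions -/

/-- The term function on `M` in the variables `0, …, n` given by a term. -/
def tf {M : Type u} [Lattice M] (n : ℕ) (t : LTerm) : (Fin (n + 1) → M) → M :=
  fun a => t.eval (fun i => a (Fin.ofNat (n + 1) i))

/-- The lattice of term functions on `M` in the variables `0, …, n`. -/
def TF (M : Type u) [Lattice M] (n : ℕ) : Sublattice ((Fin (n + 1) → M) → M) where
  carrier := {φ | ∃ t : LTerm, tf n t = φ}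
  supClosed' := by
    rintro _ ⟨s, rfl⟩ _ ⟨t, rfl⟩
    exact ⟨LTerm.join s t, rfl⟩
  infClosed' := by
    rintro _ ⟨s, rfl⟩ _ ⟨t, rfl⟩
    exact ⟨LTerm.meet s t, rfl⟩

/-- Renaming of variables. -/
def ren (ρ : ℕ → ℕ) : LTerm → LTerm
  | .var n => .var (ρ n)
  | .join a b => .join (ren ρ a) (ren ρ b)
  | .meet a b => .meet (ren ρ a) (ren ρ b)

theorem eval_ren {K : Type u} [Lattice K] (ρ : ℕ → ℕ) (v : ℕ → K) (t : LTerm) :
    (ren ρ t).eval v = t.eval (fun i => v (ρ i)) := by
  induction t with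
  | var n => rfl
  | join a b iha ihb =>
    show (ren ρ a).eval v ⊔ (ren ρ b).eval v = _
    rw [iha, ihb]; rfl
  | meet a b iha ihb =>
    show (ren ρ a).eval v ⊓ (ren ρ b).eval v = _
    rw [iha, ihb]; rfl

theorem tf_wd {M : Type u} {L : Type v} [Lattice M] [Lattice L]
    (hL : ∀ s t, Holds M s t → Holds L s t) {n : ℕ} (w : Fin (n + 1) → L) {s t : LTerm}
    (h : (tf n s : (Fin (n + 1) → M) → M) = tf n t) :
    s.eval (fun i => w (Fin.ofNat (n + 1) i)) = t.eval (fun i => w (Fin.ofNat (n + 1) i)) := by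
  have h1 : Holds M (ren (fun i => i % (n + 1)) s) (ren (fun i => i % (n + 1)) t) := by
    intro v
    rw [eval_ren, eval_ren]
    exact congrFun h (fun j => v j.1)
  have h2 := hL _ _ h1 (fun i => w (Fin.ofNat (n + 1) i))
  rw [eval_ren, eval_ren] at h2
  have e : (fun i : ℕ => w (Fin.ofNat (n + 1) (i % (n + 1)))) =
      fun i => w (Fin.ofNat (n + 1) i) := by
    funext i
    congr 1
    apply Fin.ext
    show (i % (n + 1)) % (n + 1) = i % (n + 1)
    exact Nat.mod_mod _ _
  rw [e] at h2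
  exact h2

/-- The homomorphism from the lattice of term functions of `M` to a lattice `L` in the variety
generated by `M`, given by the values `w` of the variables. -/
noncomputable def th {M : Type u} {L : Type v} [Lattice M] [Lattice L]
    (hL : ∀ s t, Holds M s t → Holds L s t) {n : ℕ} (w : Fin (n + 1) → L) :
    LatticeHom (TF M n) L where
  toFun φ := (Classical.choose φ.2).eval (fun i => w (Fin.ofNat (n + 1) i))
  map_sup' φ ψ := by
    have h1 := Classical.choose_spec (φ ⊔ ψ).2
    have h2 := Classical.choose_spec φ.2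
    have h3 := Classical.choose_spec ψ.2
    refine tf_wd (t := LTerm.join (Classical.choose φ.2) (Classical.choose ψ.2)) hL w ?_
    rw [h1]
    show φ.1 ⊔ ψ.1 = tf n (Classical.choose φ.2) ⊔ tf n (Classical.choose ψ.2)
    rw [h2, h3]
  map_inf' φ ψ := by
    have h1 := Classical.choose_spec (φ ⊓ ψ).2
    have h2 := Classical.choose_spec φ.2
    have h3 := Classical.choose_spec ψ.2
    refine tf_wd (t := LTerm.meet (Classical.choose φ.2) (Classical.choose ψ.2)) hL w ?_
    rw [h1]
    show φ.1 ⊓ ψ.1 = tf n (Classical.choose φ.2) ⊓ tf n (Classical.choose ψ.2)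
    rw [h2, h3]

theorem th_var {M : Type u} {L : Type v} [Lattice M] [Lattice L]
    (hL : ∀ s t, Holds M s t → Holds L s t) {n : ℕ} (w : Fin (n + 1) → L) (j : Fin (n + 1)) :
    th hL w ⟨tf n (LTerm.var j.1), ⟨_, rfl⟩⟩ = w j := by
  have h1 := Classical.choose_spec
    (⟨tf n (LTerm.var j.1), ⟨_, rfl⟩⟩ : TF M n).2
  have h2 := tf_wd hL w h1
  refine h2.trans ?_
  show w (Fin.ofNat (n + 1) j.1) = w j
  congr 1
  apply Fin.ext
  exact Nat.mod_eq_of_lt j.2

/-! ### The transfer theorem -/

theorem transfer_le {M : Type u} [Lattice M] [Finite M] {L : Type v} [Lattice L]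
    (hL : ∀ s t, Holds M s t → Holds L s t) {s t : LTerm} (hst : Holds (Sublattice (M × M)) s t)
    (v : ℕ → Sublattice (L × L)) (hv : ∀ i, v i ∈ Diag L) : s.eval v ≤ t.eval v := by
  rintro ⟨f, g⟩ hfg
  obtain ⟨W, hW, hlift⟩ := lift_term.{u} v hv s f g hfg
  obtain ⟨n, w, hw⟩ := (hW.insert f).fin_embedding
  obtain ⟨m, rfl⟩ : ∃ m, n = m + 1 := by
    rcases n with _ | m
    · have h1 : f ∈ Set.range w := by rw [hw]; exact Set.mem_insert f W
      obtain ⟨j, _⟩ := h1
      exact j.elim0
    · exact ⟨m, rfl⟩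
  have hr : W ⊆ Set.range (th hL (w : Fin (m + 1) → L)) := by
    intro x hx
    have h1 : x ∈ Set.range w := by rw [hw]; exact Set.mem_insert_of_mem f hx
    obtain ⟨j, rfl⟩ := h1
    exact ⟨_, th_var hL w j⟩
  obtain ⟨φ, ψ, hφψ, e1, e2⟩ := hlift (TF M m) (th hL (w : Fin (m + 1) → L)) hr
  have hv' : ∀ i, (v i).comap (pm (th hL (w : Fin (m + 1) → L)) (th hL (w : Fin (m + 1) → L))) ∈
    Diag (TF M m) := fun i => comap_diag _ (hv i)
  have h3 : (φ, ψ) ∈ t.eval (fun i => (v i).comap
      (pm (th hL (w : Fin (m + 1) → L)) (th hL (w : Fin (m + 1) → L)))) := by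
    apply separate (TF M m) (eval_diag hv' t)
    intro x y
    have h4 : pm (ev (TF M m) x) (ev (TF M m) y) (φ, ψ) ∈
        (s.eval (fun i => (v i).comap
          (pm (th hL (w : Fin (m + 1) → L)) (th hL (w : Fin (m + 1) → L))))).map
            (pm (ev (TF M m) x) (ev (TF M m) y)) := ⟨_, hφψ, rfl⟩
    rw [eval_map _ _ hv', hst, ← eval_map _ _ hv'] at h4
    obtain ⟨⟨φ', ψ'⟩, h5, h6⟩ := h4
    exact ⟨φ', ψ', h5, congrArg Prod.fst h6, congrArg Prod.snd h6⟩
  have h4 := eval_comap_le _ v t h3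
  have h5 : (th hL (w : Fin (m + 1) → L) φ, th hL (w : Fin (m + 1) → L) ψ) ∈ t.eval v := h4
  rw [e1, e2] at h5
  exact h5

theorem eval_coe {L : Type u} [Lattice L] (v : ℕ → Diag L) (t : LTerm) :
    ((t.eval v : Diag L) : Sublattice (L × L)) = t.eval (fun i => (v i).1) := by
  induction t with
  | var n => rfl
  | join a b iha ihb =>
    show ((a.eval v : Diag L) : Sublattice (L × L)) ⊔ ((b.eval v : Diag L) : Sublattice (L × L)) = _
    rw [iha, ihb]; rfl
  | meet a b iha ihb =>
    show ((a.eval v : Diag L) : Sublattice (L × L)) ⊓ ((b.eval v : Diag L) : Sublattice (L × L)) = _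
    rw [iha, ihb]; rfl

theorem transfer {M : Type u} [Lattice M] [Finite M] {L : Type v} [Lattice L]
    (hL : ∀ s t, Holds M s t → Holds L s t) {s t : LTerm} (hst : Holds (Sublattice (M × M)) s t) :
    Holds (Diag L) s t := by
  intro v
  apply Subtype.ext
  rw [eval_coe, eval_coe]
  apply le_antisymm
  · exact transfer_le hL hst _ (fun i => (v i).2)
  · exact transfer_le hL (fun w => (hst w).symm) _ (fun i => (v i).2)

/-! ### A nontrivial identity satisfied by every lattice with at most `N` elements -/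

/-- The terms `p₀ = x ∧ w`, `pₙ₊₁ = (((pₙ ∨ u) ∧ w) ∨ v) ∧ w`, where `x, u, v, w` are the variables
`x₀, x₁, x₂, x₃`. -/
def pt : ℕ → LTerm
  | 0 => .meet (.var 0) (.var 3)
  | n + 1 => .meet (.join (.meet (.join (pt n) (.var 1)) (.var 3)) (.var 2)) (.var 3)

theorem pt_succ {K : Type u} [Lattice K] (v : ℕ → K) (n : ℕ) :
    (pt (n + 1)).eval v = ((((pt n).eval v ⊔ v 1) ⊓ v 3) ⊔ v 2) ⊓ v 3 := rfl

theorem pt_le {K : Type u} [Lattice K] (v : ℕ → K) (n : ℕ) : (pt n).eval v ≤ v 3 := by
  cases n with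
  | zero => exact inf_le_right
  | succ n => rw [pt_succ]; exact inf_le_right

theorem pt_mono {K : Type u} [Lattice K] (v : ℕ → K) : Monotone (fun n => (pt n).eval v) := by
  apply monotone_nat_of_le_succ
  intro n
  show (pt n).eval v ≤ (pt (n + 1)).eval v
  rw [pt_succ]
  refine le_inf (le_trans ?_ le_sup_left) (pt_le v n)
  exact le_inf le_sup_left (pt_le v n)

theorem pt_stable {K : Type u} [Lattice K] [Finite K] {N : ℕ} (hN : Nat.card K ≤ N) :
    Holds K (pt (N + 1)) (pt N) := by
  intro v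
  have h1 : ∃ i j : Fin (N + 1), i < j ∧ (pt i.1).eval v = (pt j.1).eval v := by
    by_contra hcon
    have hinj : Function.Injective (fun i : Fin (N + 1) => (pt i.1).eval v) := by
      intro i j hij
      by_contra hne
      rcases lt_or_gt_of_ne hne with h | h
      · exact hcon ⟨i, j, h, hij⟩
      · exact hcon ⟨j, i, h, hij.symm⟩
    have h2 := Nat.card_le_card_of_injective _ hinj
    rw [Nat.card_fin] at h2
    omega
  obtain ⟨i, j, hij, he⟩ := h1
  have h2 : (pt (i.1 + 1)).eval v = (pt i.1).eval v := by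
    apply le_antisymm
    · rw [he]
      exact pt_mono v (show i.1 + 1 ≤ j.1 from hij)
    · exact pt_mono v (Nat.le_succ _)
  have h3 : ∀ k, (pt (i.1 + k + 1)).eval v = (pt (i.1 + k)).eval v := by
    intro k
    induction k with
    | zero => exact h2
    | succ k ih =>
      rw [pt_succ v (i.1 + (k + 1)), show i.1 + (k + 1) = i.1 + k + 1 from rfl, ih, ← pt_succ]
      exact ih
  have h4 := h3 (N - i.1)
  have h5 : i.1 + (N - i.1) = N := by
    have := i.2
    omega
  rw [h5] at h4
  exact h4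

/-! ### The identity fails in a partition lattice -/

/-- The assignment. -/
def asg : ℕ → Setoid (ℕ × Bool)
  | 0 => Setoid.ker (fun p => (p.1, if p.1 = 0 then true else p.2))
  | 1 => Setoid.ker (fun p => (p.1 / 2, p.2))
  | 2 => Setoid.ker (fun p => ((p.1 + 1) / 2, p.2))
  | _ => Setoid.ker (fun p => p.1)

theorem asg0 (p q : ℕ × Bool) : asg 0 p q ↔
    (p.1, if p.1 = 0 then true else p.2) = (q.1, if q.1 = 0 then true else q.2) := Iff.rfl
theorem asg1 (p q : ℕ × Bool) : asg 1 p q ↔ (p.1 / 2, p.2) = (q.1 / 2, q.2) := Iff.rfl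
theorem asg2 (p q : ℕ × Bool) : asg 2 p q ↔ ((p.1 + 1) / 2, p.2) = ((q.1 + 1) / 2, q.2) := Iff.rfl
theorem asg3 (p q : ℕ × Bool) : asg 3 p q ↔ p.1 = q.1 := Iff.rfl

theorem pt_lower (n : ℕ) : (pt n).eval asg (2 * n, false) (2 * n, true) ∧
    (pt (n + 1)).eval asg (2 * n + 1, false) (2 * n + 1, true) := by
  have step : ∀ n, (pt n).eval asg (2 * n, false) (2 * n, true) →
      (((pt n).eval asg ⊔ asg 1) ⊓ asg 3) (2 * n + 1, false) (2 * n + 1, true) := by
    intro n h
    refine Setoid.inf_iff_and.2 ⟨?_, rfl⟩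
    have h1 : ((pt n).eval asg ⊔ asg 1) (2 * n, false) (2 * n, true) :=
      (le_sup_left : (pt n).eval asg ≤ (pt n).eval asg ⊔ asg 1) h
    have h2 : ∀ b : Bool, ((pt n).eval asg ⊔ asg 1) (2 * n + 1, b) (2 * n, b) := by
      intro b
      refine (le_sup_right : asg 1 ≤ (pt n).eval asg ⊔ asg 1) ?_
      rw [asg1]
      ext
      · show (2 * n + 1) / 2 = (2 * n) / 2
        omega
      · rfl
    exact Setoid.trans' _ (h2 false) (Setoid.trans' _ h1 (Setoid.symm' _ (h2 true)))
  have step2 : ∀ n, (pt n).eval asg (2 * n, false) (2 * n, true) →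
      ((((pt n).eval asg ⊔ asg 1) ⊓ asg 3) ⊔ asg 2) (2 * n + 1, false) (2 * n + 1, true) := by
    intro n h
    exact (le_sup_left : (((pt n).eval asg ⊔ asg 1) ⊓ asg 3) ≤
      (((pt n).eval asg ⊔ asg 1) ⊓ asg 3) ⊔ asg 2) (step n h)
  have h0 : ∀ n, (pt n).eval asg (2 * n, false) (2 * n, true) := by
    intro n
    induction n with
    | zero =>
      refine Setoid.inf_iff_and.2 ⟨?_, rfl⟩
      rfl
    | succ n ih =>
      rw [pt_succ]
      refine Setoid.inf_iff_and.2 ⟨?_, rfl⟩
      have h1 := step2 n ih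
      have h2 : ∀ b : Bool, ((((pt n).eval asg ⊔ asg 1) ⊓ asg 3) ⊔ asg 2)
          (2 * (n + 1), b) (2 * n + 1, b) := by
        intro b
        refine (le_sup_right : asg 2 ≤ (((pt n).eval asg ⊔ asg 1) ⊓ asg 3) ⊔ asg 2) ?_
        rw [asg2]
        ext
        · show (2 * (n + 1) + 1) / 2 = (2 * n + 1 + 1) / 2
          omega
        · rfl
      exact Setoid.trans' _ (h2 false) (Setoid.trans' _ h1 (Setoid.symm' _ (h2 true)))
  refine ⟨h0 n, ?_⟩
  rw [pt_succ]
  exact Setoid.inf_iff_and.2 ⟨step2 n (h0 n), rfl⟩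

/-- An upper bound for the value of `pₙ`. -/
def R (n : ℕ) : Setoid (ℕ × Bool) :=
  Setoid.ker (fun p => (p.1, if p.1 ≤ 2 * n then true else p.2))

/-- An auxiliary upper bound. -/
def A (n : ℕ) : Setoid (ℕ × Bool) :=
  Setoid.ker (fun p => (p.1 / 2, if p.1 ≤ 2 * n + 1 then true else p.2))

/-- An auxiliary upper bound. -/
def B (n : ℕ) : Setoid (ℕ × Bool) :=
  Setoid.ker (fun p => ((p.1 + 1) / 2, if p.1 ≤ 2 * n + 2 then true else p.2))

theorem pt_upper (n : ℕ) : (pt n).eval asg ≤ R n := by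
  induction n with
  | zero =>
    refine inf_le_left.trans ?_
    rintro ⟨i, b⟩ ⟨j, c⟩ h
    have h1 : (i, if i = 0 then true else b) = (j, if j = 0 then true else c) := h
    show (i, if i ≤ 2 * 0 then true else b) = (j, if j ≤ 2 * 0 then true else c)
    simpa using h1
  | succ n ih =>
    rw [pt_succ]
    have h1 : (pt n).eval asg ⊔ asg 1 ≤ A n := by
      apply sup_le
      · refine ih.trans ?_
        rintro ⟨i, b⟩ ⟨j, c⟩ h
        have h1 : (i, if i ≤ 2 * n then true else b) = (j, if j ≤ 2 * n then true else c) := h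
        show (i / 2, if i ≤ 2 * n + 1 then true else b) =
          (j / 2, if j ≤ 2 * n + 1 then true else c)
        have h2 : i = j := congrArg Prod.fst h1
        subst h2
        have h3 : (if i ≤ 2 * n then true else b) = (if i ≤ 2 * n then true else c) :=
          congrArg Prod.snd h1
        ext
        · rfl
        · show (if i ≤ 2 * n + 1 then true else b) = (if i ≤ 2 * n + 1 then true else c)
          split_ifs with h4
          · rfl
          · rw [if_neg (by omega), if_neg (by omega)] at h3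
            exact h3
      · rintro ⟨i, b⟩ ⟨j, c⟩ h
        have h1 : (i / 2, b) = (j / 2, c) := h
        show (i / 2, if i ≤ 2 * n + 1 then true else b) =
          (j / 2, if j ≤ 2 * n + 1 then true else c)
        have h2 : i / 2 = j / 2 := congrArg Prod.fst h1
        have h3 : b = c := congrArg Prod.snd h1
        subst h3
        have h4 : i ≤ 2 * n + 1 ↔ j ≤ 2 * n + 1 := by omega
        ext
        · exact h2
        · show (if i ≤ 2 * n + 1 then true else b) = (if j ≤ 2 * n + 1 then true else b)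
          simp only [h4]
    have h2 : (((pt n).eval asg ⊔ asg 1) ⊓ asg 3) ⊔ asg 2 ≤ B n := by
      apply sup_le
      · refine (inf_le_inf_right _ h1).trans ?_
        rintro ⟨i, b⟩ ⟨j, c⟩ h
        have h0 := Setoid.inf_iff_and.1 h
        have h1 : (i / 2, if i ≤ 2 * n + 1 then true else b) =
          (j / 2, if j ≤ 2 * n + 1 then true else c) := h0.1
        have h2 : i = j := h0.2
        subst h2
        have h3 : (if i ≤ 2 * n + 1 then true else b) = (if i ≤ 2 * n + 1 then true else c) :=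
          congrArg Prod.snd h1
        show ((i + 1) / 2, if i ≤ 2 * n + 2 then true else b) =
          ((i + 1) / 2, if i ≤ 2 * n + 2 then true else c)
        ext
        · rfl
        · show (if i ≤ 2 * n + 2 then true else b) = (if i ≤ 2 * n + 2 then true else c)
          split_ifs with h4
          · rfl
          · rw [if_neg (by omega), if_neg (by omega)] at h3
            exact h3
      · rintro ⟨i, b⟩ ⟨j, c⟩ h
        have h1 : ((i + 1) / 2, b) = ((j + 1) / 2, c) := h
        show ((i + 1) / 2, if i ≤ 2 * n + 2 then true else b) =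
          ((j + 1) / 2, if j ≤ 2 * n + 2 then true else c)
        have h2 : (i + 1) / 2 = (j + 1) / 2 := congrArg Prod.fst h1
        have h3 : b = c := congrArg Prod.snd h1
        subst h3
        have h4 : i ≤ 2 * n + 2 ↔ j ≤ 2 * n + 2 := by omega
        ext
        · exact h2
        · show (if i ≤ 2 * n + 2 then true else b) = (if j ≤ 2 * n + 2 then true else b)
          simp only [h4]
    refine (inf_le_inf_right _ h2).trans ?_
    rintro ⟨i, b⟩ ⟨j, c⟩ h
    have h0 := Setoid.inf_iff_and.1 h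
    have h1 : ((i + 1) / 2, if i ≤ 2 * n + 2 then true else b) =
          ((j + 1) / 2, if j ≤ 2 * n + 2 then true else c) := h0.1
    have h2 : i = j := h0.2
    subst h2
    have h3 : (if i ≤ 2 * n + 2 then true else b) = (if i ≤ 2 * n + 2 then true else c) :=
      congrArg Prod.snd h1
    show (i, if i ≤ 2 * (n + 1) then true else b) = (i, if i ≤ 2 * (n + 1) then true else c)
    have h5 : 2 * (n + 1) = 2 * n + 2 := by omega
    rw [h5, h3]

theorem pt_fails (n : ℕ) : ¬ Holds (Setoid (ℕ × Bool)) (pt (n + 1)) (pt n) := by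
  intro h
  have h1 := (pt_lower n).2
  rw [h asg] at h1
  have h2 := pt_upper n h1
  have h3 : (2 * n + 1, if 2 * n + 1 ≤ 2 * n then true else false) =
    (2 * n + 1, if 2 * n + 1 ≤ 2 * n then true else true) := h2
  have h4 : (if 2 * n + 1 ≤ 2 * n then true else false) =
    (if 2 * n + 1 ≤ 2 * n then true else true) := congrArg Prod.snd h3
  rw [if_neg (by omega), if_neg (by omega)] at h4
  exact Bool.noConfusion h4

/-! ### A finite nondistributive lattice -/

theorem finite_setoid : Finite (Setoid (Fin 3)) := by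
  refine Finite.of_injective (fun (s : Setoid (Fin 3)) => (fun i j => s i j : Fin 3 → Fin 3 → Prop))
    ?_
  intro s t h
  apply Setoid.ext
  intro i j
  exact iff_of_eq (congrFun (congrFun h i) j)

/-- The partition of `{0, 1, 2}` with the only nontrivial block `{i, j}`. -/
def blk (i j : Fin 3) : Setoid (Fin 3) := Setoid.ker (fun k => if k = j then i else k)

theorem blk_mem (i j : Fin 3) : blk i j i j := by
  show (if i = j then i else i) = (if j = j then i else j)
  simp

theorem not_distrib : blk 0 1 ⊓ (blk 0 2 ⊔ blk 1 2) ≠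
    (blk 0 1 ⊓ blk 0 2) ⊔ (blk 0 1 ⊓ blk 1 2) := by
  intro h
  have h1 : (blk 0 1 ⊓ (blk 0 2 ⊔ blk 1 2)) 0 1 := by
    refine Setoid.inf_iff_and.2 ⟨blk_mem 0 1, ?_⟩
    have h2 : (blk 0 2 ⊔ blk 1 2) 0 2 :=
      (le_sup_left : blk 0 2 ≤ blk 0 2 ⊔ blk 1 2) (blk_mem 0 2)
    have h3 : (blk 0 2 ⊔ blk 1 2) 1 2 :=
      (le_sup_right : blk 1 2 ≤ blk 0 2 ⊔ blk 1 2) (blk_mem 1 2)
    exact Setoid.trans' _ h2 (Setoid.symm' _ h3)
  rw [h] at h1
  have h4 : (blk 0 1 ⊓ blk 0 2) ⊔ (blk 0 1 ⊓ blk 1 2) ≤ ⊥ := by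
    apply sup_le
    · rintro i j hij
      have h5 := Setoid.inf_iff_and.1 hij
      have h6 : (if i = 1 then (0 : Fin 3) else i) = (if j = 1 then 0 else j) := h5.1
      have h7 : (if i = 2 then (0 : Fin 3) else i) = (if j = 2 then 0 else j) := h5.2
      show i = j
      clear h5 hij h1 h
      revert h6 h7
      revert i j
      decide
    · rintro i j hij
      have h5 := Setoid.inf_iff_and.1 hij
      have h6 : (if i = 1 then (0 : Fin 3) else i) = (if j = 1 then 0 else j) := h5.1
      have h7 : (if i = 2 then (1 : Fin 3) else i) = (if j = 2 then 1 else j) := h5.2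
      show i = j
      clear h5 hij h1 h
      revert h6 h7
      revert i j
      decide
  have h5 : (0 : Fin 3) = 1 := h4 h1
  exact absurd h5 (by decide)

/-! ### The result -/

/-- `Sat E K`: the lattice `K` satisfies all identities of the set `E`, that is, `K` belongs to the
variety of lattices defined by `E`. -/
def Sat (E : Set (LTerm × LTerm)) (K : Type u) [Lattice K] : Prop :=
  ∀ p ∈ E, Holds K p.1 p.2

/-- The set of all identities satisfied by the lattice `M`; it defines the variety generated by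
`M`. -/
def identities (M : Type u) [Lattice M] : Set (LTerm × LTerm) := {p | Holds M p.1 p.2}

theorem diag_of_finite (M : Type u) [Lattice M] [Finite M] (s t : LTerm)
    (hst : Holds (Sublattice (M × M)) s t) (L : Type v) [Lattice L]
    (hL : Sat (identities M) L) : Holds (Diag L) s t :=
  transfer (fun a b hab => hL (a, b) hab) hst

theorem nontrivial_identity (M : Type u) [Lattice M] [Finite M] : ∃ s t : LTerm,
    (∃ (K : Type) (_ : Lattice K), ¬ Holds K s t) ∧
    ∀ (L : Type v) [Lattice L], Sat (identities M) L → Holds (Diag L) s t := by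
  have hfin : Finite (Sublattice (M × M)) :=
    Finite.of_injective (fun S : Sublattice (M × M) => (S : Set (M × M))) SetLike.coe_injective
  refine ⟨pt (Nat.card (Sublattice (M × M)) + 1), pt (Nat.card (Sublattice (M × M))),
    ⟨Setoid (ℕ × Bool), inferInstance, pt_fails _⟩, ?_⟩
  intro L _ hL
  exact diag_of_finite M _ _ (pt_stable le_rfl) L hL

/-- **Q1 has a negative answer.** There is a variety of lattices, defined by a set `E` of identities,
which is nontrivial and contains a nondistributive lattice, and there is an identity `s = t` which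
fails in some lattice but holds in `Δ(L)` for every lattice `L` of the variety. In fact this is so for
the variety generated by an arbitrary finite lattice `M`, and for `L` in this variety `Δ(L)` satisfies
all identities of the finite lattice of all sublattices of `M × M`. -/
theorem result :
    (∃ E : Set (LTerm × LTerm),
      (∃ (K : Type) (_ : Lattice K), Nontrivial K ∧ Sat E K) ∧
      (∃ (K : Type) (_ : Lattice K), Sat E K ∧
        ∃ a b c : K, a ⊓ (b ⊔ c) ≠ (a ⊓ b) ⊔ (a ⊓ c)) ∧
      ∃ s t : LTerm, (∃ (K : Type) (_ : Lattice K), ¬ Holds K s t) ∧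
        ∀ (L : Type v) [Lattice L], Sat E L → Holds (Diag L) s t) ∧
    (∀ (M : Type u) [Lattice M] [Finite M],
      (∀ s t : LTerm, Holds (Sublattice (M × M)) s t →
        ∀ (L : Type v) [Lattice L], Sat (identities M) L → Holds (Diag L) s t) ∧
      ∃ s t : LTerm, (∃ (K : Type) (_ : Lattice K), ¬ Holds K s t) ∧
        ∀ (L : Type v) [Lattice L], Sat (identities M) L → Holds (Diag L) s t) := by
  constructor
  · refine ⟨identities (Setoid (Fin 3)), ⟨Setoid (Fin 3), inferInstance, ?_, fun p hp => hp⟩,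
      ⟨Setoid (Fin 3), inferInstance, fun p hp => hp, _, _, _, not_distrib⟩, ?_⟩
    · refine ⟨⟨blk 0 1 ⊓ (blk 0 2 ⊔ blk 1 2), _, not_distrib⟩⟩
    · have := finite_setoid
      exact nontrivial_identity (Setoid (Fin 3))
  · intro M _ _
    exact ⟨fun s t hst L _ hL => diag_of_finite M s t hst L hL, nontrivial_identity M⟩

end Pool.Agent.Results.MP_bb8c7b_al.FinitelyGenerated
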